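import Mathlib
import Pool.Agent.Helper18.RL.Goals
import Pool.Agent.Helper41.PP.Link

set_option autoImplicit false
set_option linter.unusedSectionVars false

/-!
RL-MNG: Menger and the two notions of cycle.
-/

namespace Pool.Agent.Helper83.RL

open Finset Pool.Agent.Helper37.RG3 Pool.Agent.Helper18.RL

variable {V : Type} [Fintype V] [DecidableEq V]

/-- The walk of a path. -/
theorem pth_walk (G : SimpleGraph V) {S : Finset V} {a b : V} (h : Pth G.Adj S a b) :
    ∃ p : G.Walk a b, p.IsPath ∧ p.length + 1 = S.card ∧ ∀ x, x ∈ p.support ↔ x ∈ S := by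
  induction h with
  | one a => exact ⟨SimpleGraph.Walk.nil, by simp, by simp, by simp⟩
  | @cons S a b c h1 h2 h3 ih =>
    obtain ⟨p, hp, hl, hs⟩ := ih
    refine ⟨SimpleGraph.Walk.cons h1 p, ?_, ?_, ?_⟩
    · rw [SimpleGraph.Walk.cons_isPath_iff]
      exact ⟨hp, fun h => h2 ((hs a).1 h)⟩
    · rw [SimpleGraph.Walk.length_cons, Finset.card_insert_of_notMem h2, hl]
    · intro x
      rw [SimpleGraph.Walk.support_cons, List.mem_cons, Finset.mem_insert, hs]

/-- The cycle of a long odd set. -/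
theorem lo_cycle (G : SimpleGraph V) {S : Finset V} (h : LO G.Adj S) :
    ∃ (a : V) (p : G.Walk a a), p.IsCycle ∧ Odd p.length ∧ 5 ≤ p.length ∧
      ∀ x, x ∈ p.support ↔ x ∈ S := by
  obtain ⟨hodd, h5, a, b, hp, hab⟩ := h
  obtain ⟨p, hpp, hl, hs⟩ := pth_walk G hp
  refine ⟨b, SimpleGraph.Walk.cons hab p, ?_, ?_, ?_, ?_⟩
  · rw [SimpleGraph.Walk.cons_isCycle_iff]
    refine ⟨hpp, ?_⟩
    intro he
    cases p with
    | nil => simp at hl; omega
    | @cons _ c _ h1 q =>
      rw [SimpleGraph.Walk.cons_isPath_iff] at hpp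
      rw [SimpleGraph.Walk.edges_cons, List.mem_cons] at he
      rcases he with he | he
      · rw [Sym2.eq_iff] at he
        have hcb : c = b := by
          rcases he with ⟨h, h'⟩ | ⟨h, _⟩
          · rw [← h', h]
          · exact h.symm
        subst hcb
        have hq : q = SimpleGraph.Walk.nil := SimpleGraph.Walk.eq_nil_iff_nil.2 (SimpleGraph.Walk.isPath_iff_nil.1 hpp.1)
        rw [hq] at hl
        simp at hl
        omega
      · exact hpp.2 (SimpleGraph.Walk.snd_mem_support_of_mem_edges q he)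
  · rw [SimpleGraph.Walk.length_cons, hl]
    exact hodd
  · rw [SimpleGraph.Walk.length_cons, hl]
    exact h5
  · intro x
    rw [SimpleGraph.Walk.support_cons, List.mem_cons, hs]
    constructor
    · rintro (h | h)
      · rw [h]; exact hp.right_mem
      · exact h
    · exact fun h => Or.inr h

/-- The walk of a chain. -/
theorem chain_walk (G : SimpleGraph V) : ∀ (l : List V) (a : V), (a :: l).IsChain G.Adj →
    ∃ (y : V) (p : G.Walk a y), p.support = a :: l
  | [], a, _ => ⟨a, SimpleGraph.Walk.nil, by simp⟩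
  | b :: l, a, h => by
    rw [List.isChain_cons_cons] at h
    obtain ⟨y, p, hp⟩ := chain_walk G l b h.2
    exact ⟨y, SimpleGraph.Walk.cons h.1 p, by rw [SimpleGraph.Walk.support_cons, hp]⟩

/-- The graph with four new vertices joined to `S`. -/
def plus (G : SimpleGraph V) (S : Finset V) : SimpleGraph (V ⊕ Fin 4) where
  Adj x y := (∃ u v, x = Sum.inl u ∧ y = Sum.inl v ∧ G.Adj u v) ∨
    (∃ i v, x = Sum.inr i ∧ y = Sum.inl v ∧ v ∈ S) ∨
    (∃ i v, y = Sum.inr i ∧ x = Sum.inl v ∧ v ∈ S)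
  symm := ⟨by
    rintro x y (⟨u, v, h1, h2, h3⟩ | h | h)
    · exact Or.inl ⟨v, u, h2, h1, h3.symm⟩
    · exact Or.inr (Or.inr h)
    · exact Or.inr (Or.inl h)⟩
  loopless := ⟨by
    rintro x (⟨u, v, h1, h2, h3⟩ | ⟨i, v, h1, h2, h3⟩ | ⟨i, v, h1, h2, h3⟩)
    · rw [h1] at h2
      cases h2
      exact G.irrefl h3
    · rw [h1] at h2
      cases h2
    · rw [h1] at h2
      cases h2⟩

theorem plus_ll {G : SimpleGraph V} {S : Finset V} {u v : V} :
    (plus G S).Adj (Sum.inl u) (Sum.inl v) ↔ G.Adj u v := by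
  constructor
  · rintro (⟨a, b, h1, h2, h3⟩ | ⟨i, a, h1, _⟩ | ⟨i, a, h1, _⟩)
    · cases h1; cases h2; exact h3
    · cases h1
    · cases h1
  · intro h
    exact Or.inl ⟨u, v, rfl, rfl, h⟩

theorem plus_rl {G : SimpleGraph V} {S : Finset V} {i : Fin 4} {v : V} :
    (plus G S).Adj (Sum.inr i) (Sum.inl v) ↔ v ∈ S := by
  constructor
  · rintro (⟨a, b, h1, h2, h3⟩ | ⟨i, a, h1, h2, h3⟩ | ⟨i, a, h1, h2, _⟩)
    · cases h1
    · cases h2; exact h3
    · cases h2
  · intro h
    exact Or.inr (Or.inl ⟨i, v, rfl, rfl, h⟩)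

theorem chain_inl {G : SimpleGraph V} {S : Finset V} (l : List V)
    (h : (l.map (Sum.inl : V → V ⊕ Fin 4)).IsChain (plus G S).Adj) : l.IsChain G.Adj := by
  rw [List.isChain_map] at h
  exact h.imp fun a b hab => plus_ll.1 hab

theorem all_inl (l : List (V ⊕ Fin 4)) (h : ∀ v ∈ l, ∃ u, v = Sum.inl u) :
    ∃ l' : List V, l = l'.map Sum.inl := by
  induction l with
  | nil => exact ⟨[], rfl⟩
  | cons a l ih =>
    obtain ⟨l', hl'⟩ := ih fun v hv => h v (List.mem_cons_of_mem _ hv)
    obtain ⟨u, hu⟩ := h a List.mem_cons_self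
    exact ⟨u :: l', by rw [hu, hl']; rfl⟩

theorem sep_or (G : SimpleGraph V) (S T : Finset V) (hSP : ¬ SP G.Adj S T)
    (Y : Finset (V ⊕ Fin 4)) (hY : Y.card < 4) :
    ∃ l : List (V ⊕ Fin 4), l.IsChain (plus G S).Adj ∧ (∀ v ∈ l, v ∉ Y) ∧
      (∃ a ∈ l.head?, ∃ i, a = Sum.inr i) ∧ (∃ b ∈ l, ∃ t ∈ T, b = Sum.inl t) := by
  classical
  by_contra hcon
  apply hSP
  -- a new vertex outside `Y`
  obtain ⟨i, hi⟩ : ∃ i : Fin 4, (Sum.inr i : V ⊕ Fin 4) ∉ Y := by
    by_contra h
    push Not at h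
    have h1 : (Finset.univ.map ⟨(Sum.inr : Fin 4 → V ⊕ Fin 4), Sum.inr_injective⟩).card ≤
        Y.card := by
      apply Finset.card_le_card
      intro x hx
      obtain ⟨j, _, rfl⟩ := Finset.mem_map.1 hx
      exact h j
    rw [Finset.card_map, Finset.card_univ, Fintype.card_fin] at h1
    omega
  set Z : Finset V := Finset.univ.filter fun v => (Sum.inl v : V ⊕ Fin 4) ∈ Y with hZ
  set L : Finset V := Finset.univ.filter fun v => ∃ l : List (V ⊕ Fin 4),
    l.IsChain (plus G S).Adj ∧ (∀ z ∈ l, z ∉ Y) ∧ (∃ a ∈ l.head?, ∃ i, a = Sum.inr i) ∧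
      l.getLast? = some (Sum.inl v) with hL
  have hZc : Z.card ≤ 3 := by
    have h1 : (Z.map ⟨(Sum.inl : V → V ⊕ Fin 4), Sum.inl_injective⟩).card ≤ Y.card := by
      apply Finset.card_le_card
      intro x hx
      obtain ⟨j, hj, rfl⟩ := Finset.mem_map.1 hx
      exact (Finset.mem_filter.1 hj).2
    rw [Finset.card_map] at h1
    omega
  refine ⟨L, Z, hZc, ?_, ?_, ?_, ?_⟩
  · rw [Finset.disjoint_left]
    intro v hv hv'
    obtain ⟨-, l, _, h2, _, h4⟩ := Finset.mem_filter.1 hv
    exact h2 _ (List.mem_of_getLast? h4) (Finset.mem_filter.1 hv').2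
  · intro s hs
    rw [Finset.mem_union]
    by_cases hsY : (Sum.inl s : V ⊕ Fin 4) ∈ Y
    · exact Or.inr (Finset.mem_filter.2 ⟨Finset.mem_univ _, hsY⟩)
    · left
      refine Finset.mem_filter.2 ⟨Finset.mem_univ _, [Sum.inr i, Sum.inl s], ?_, ?_, ?_, ?_⟩
      · rw [List.isChain_cons_cons]
        exact ⟨plus_rl.2 hs, List.isChain_singleton _⟩
      · intro z hz
        simp only [List.mem_cons, List.not_mem_nil, or_false] at hz
        rcases hz with rfl | rfl
        · exact hi
        · exact hsY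
      · exact ⟨Sum.inr i, by simp, i, rfl⟩
      · simp
  · rw [Finset.disjoint_left]
    intro v hv hvT
    obtain ⟨-, l, h1, h2, h3, h4⟩ := Finset.mem_filter.1 hv
    exact hcon ⟨l, h1, h2, h3, Sum.inl v, List.mem_of_getLast? h4, v, hvT, rfl⟩
  · intro x hx y hxy
    rw [Finset.mem_union]
    by_cases hyY : (Sum.inl y : V ⊕ Fin 4) ∈ Y
    · exact Or.inr (Finset.mem_filter.2 ⟨Finset.mem_univ _, hyY⟩)
    · left
      obtain ⟨-, l, h1, h2, ⟨a, h3, h3'⟩, h4⟩ := Finset.mem_filter.1 hx
      refine Finset.mem_filter.2 ⟨Finset.mem_univ _, l ++ [Sum.inl y], ?_, ?_, ?_, ?_⟩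
      · rw [List.isChain_append]
        refine ⟨h1, List.isChain_singleton _, ?_⟩
        intro z hz z' hz'
        rw [h4] at hz
        simp only [Option.mem_def, Option.some.injEq, List.head?_cons] at hz hz'
        rw [← hz, ← hz']
        exact plus_ll.2 hxy
      · intro z hz
        rw [List.mem_append] at hz
        rcases hz with hz | hz
        · exact h2 z hz
        · rw [List.mem_singleton] at hz
          rw [hz]
          exact hyY
      · refine ⟨a, ?_, h3'⟩
        rw [List.head?_append]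
        rw [Option.mem_def] at h3 ⊢
        rw [h3]
        rfl
      · simp

theorem gmng : G_MNG := by
  intro V _ _ G hno S T hd hS hT
  classical
  by_contra hSP
  apply hno
  obtain ⟨a, p, hp, hpo, hp5, hps⟩ := lo_cycle G hS
  obtain ⟨b, q, hq, hqo, hq5, hqs⟩ := lo_cycle G hT
  refine ⟨a, b, p, q, hp, hq, hpo, hqo, hp5, hq5, ?_, ?_⟩
  · intro x hx hx'
    exact Finset.disjoint_left.1 hd ((hps x).1 hx) ((hqs x).1 hx')
  · set A : Finset (V ⊕ Fin 4) :=
      Finset.univ.map ⟨(Sum.inr : Fin 4 → V ⊕ Fin 4), Sum.inr_injective⟩ with hA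
    set B : Finset (V ⊕ Fin 4) := T.map ⟨(Sum.inl : V → V ⊕ Fin 4), Sum.inl_injective⟩ with hB
    have hAmem : ∀ i : Fin 4, (Sum.inr i : V ⊕ Fin 4) ∈ A := fun i =>
      Finset.mem_map.2 ⟨i, Finset.mem_univ _, rfl⟩
    have hAc : A.card = 4 := by
      rw [hA, Finset.card_map, Finset.card_univ, Fintype.card_fin]
    have hAB : Disjoint A B := by
      rw [Finset.disjoint_left]
      intro x hx hx'
      obtain ⟨i, _, rfl⟩ := Finset.mem_map.1 hx
      obtain ⟨t, _, ht⟩ := Finset.mem_map.1 hx'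
      cases ht
    obtain ⟨mid, e, hme⟩ := Pool.Agent.Helper41.PP.link (plus G S) Finset.univ A B
      (Finset.subset_univ _) hAB (by
        intro Y hY
        rw [hAc] at hY
        obtain ⟨l, h1, h2, ⟨a, h3, i, h4⟩, ⟨b, h5, t, h6, h7⟩⟩ := sep_or G S T hSP Y hY
        refine ⟨l, h1, fun v hv => ⟨Finset.mem_univ _, h2 v hv⟩, ⟨a, h3, ?_⟩, ⟨b, h5, ?_⟩⟩
        · rw [h4]; exact hAmem i
        · rw [h7]; exact Finset.mem_map.2 ⟨t, h6, rfl⟩)
    have key : ∀ i : Fin 4, ∃ (x y : V) (s : G.Walk x y), x ∈ S ∧ y ∈ T ∧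
        ∀ z, z ∈ s.support → (Sum.inl z : V ⊕ Fin 4) ∈ mid (Sum.inr i) ++ [e (Sum.inr i)] := by
      intro i
      obtain ⟨⟨h1, h2⟩, h3, h4, _⟩ := hme _ (hAmem i)
      obtain ⟨l, hl⟩ := all_inl (mid (Sum.inr i) ++ [e (Sum.inr i)]) (by
        intro v hv
        rw [List.mem_append] at hv
        rcases hv with hv | hv
        · rcases v with u | j
          · exact ⟨u, rfl⟩
          · exact absurd (hAmem j) (h4 _ hv).2.1
        · rw [List.mem_singleton] at hv
          obtain ⟨t, _, ht⟩ := Finset.mem_map.1 h3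
          exact ⟨t, by rw [hv, ← ht]; rfl⟩)
      rw [hl] at h1
      cases l with
      | nil => simp at hl
      | cons x l =>
        rw [List.map_cons, List.isChain_cons_cons] at h1
        have hc : (x :: l).IsChain G.Adj := chain_inl (S := S) (x :: l) (by
          rw [List.map_cons]; exact h1.2)
        obtain ⟨y, s, hs⟩ := chain_walk G l x hc
        refine ⟨x, y, s, plus_rl.1 h1.1, ?_, ?_⟩
        · have h5 : (x :: l).getLast? = some y := by
            rw [← hs, List.getLast?_eq_getLast_of_ne_nil (SimpleGraph.Walk.support_ne_nil s),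
              SimpleGraph.Walk.getLast_support]
          have h6 : ((x :: l).map (Sum.inl : V → V ⊕ Fin 4)).getLast? = some (Sum.inl y) := by
            rw [List.getLast?_map, h5]
            rfl
          rw [← hl] at h6
          simp only [List.getLast?_append, List.getLast?_singleton, Option.some_or,
            Option.some.injEq] at h6
          rw [h6] at h3
          obtain ⟨t, ht, ht'⟩ := Finset.mem_map.1 h3
          cases ht'
          exact ht
        · intro z hz
          rw [hs] at hz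
          rw [hl]
          exact List.mem_map_of_mem hz
    choose x y s hx hy hs using key
    refine ⟨x, y, s, fun i => ⟨(hps _).2 (hx i), (hqs _).2 (hy i)⟩, ?_⟩
    intro i j hij z hz hz'
    have h1 := hs i z hz
    have h2 := hs j z hz'
    obtain ⟨_, k3, k4, k5⟩ := hme _ (hAmem i)
    obtain ⟨_, m3, m4, _⟩ := hme _ (hAmem j)
    obtain ⟨n1, n2⟩ := k5 _ (hAmem j) (fun h => hij (Sum.inr_injective h))
    rw [List.mem_append, List.mem_singleton] at h1 h2
    rcases h1 with h1 | h1
    · rcases h2 with h2 | h2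
      · exact n2 _ h1 h2
      · rw [h2] at h1
        exact (k4 _ h1).2.2 m3
    · rcases h2 with h2 | h2
      · rw [h1] at h2
        exact (m4 _ h2).2.2 k3
      · exact n1 (h1.symm.trans h2)

end Pool.Agent.Helper83.RL
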